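import Pool.Agent.K3h43.GEN.Stm
import Pool.Agent.K3h8.DSL.BrickA

/-! MP_ec2393_nt: brick G3 (symbols of Ihara brackets). -/

set_option autoImplicit false

namespace Pool.Agent.K3h93.GEN

open Pool.Agent.H777R4.DM Pool.Agent.R241.DL Pool.Agent.K3h43.DSL Pool.Agent.K3h43.GEN
  Pool.Agent.K3h8.DSL

/-! ### linear extensions and submodules -/

lemma lext_mem {V : Type} [AddCommGroup V] [Module ℚ V] (F : List (Fin 2) → V) (S : Submodule ℚ V)
    (P : A) (h : ∀ u, co P u ≠ 0 → F u ∈ S) : lext F P ∈ S := by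
  unfold lext
  rw [LinearMap.comp_apply, Finsupp.linearCombination_apply]
  unfold Finsupp.sum
  refine Submodule.sum_mem _ fun m hm => Submodule.smul_mem _ _ (h _ ?_)
  exact Finsupp.mem_support_iff.1 hm

lemma eq_lext (P : A) : lext (fun u => (wd u : A)) P = P := by
  induction P using al_induction with
  | h1 l => rw [lext_wd]
  | h2 P Q hP hQ => rw [map_add, hP, hQ]
  | h3 c P hP => rw [map_smul, hP]

lemma mem_of_words (S : Submodule ℚ A) (P : A) (h : ∀ u, co P u ≠ 0 → (wd u : A) ∈ S) : P ∈ S := by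
  rw [← eq_lext P]
  exact lext_mem _ S P h

/-! ### words with too many letters `x₀` -/

lemma evL_count (u : List (Fin 2)) : ∀ L : List ℚ, L.length ≤ u.count 0 → evL L u = 0 := by
  induction u with
  | nil =>
    intro L hL
    rcases L with _ | ⟨z, zs⟩
    · exact evL_nil _
    · simp at hL
  | cons i u ih =>
    intro L hL
    rcases L with _ | ⟨z, zs⟩
    · exact evL_nil _
    · have hi : i = 1 ∨ i = 0 := by omega
      rcases hi with rfl | rfl
      · rw [evL_one, ih (z :: zs), mul_zero]
        simpa using hL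
      · rw [evL_zero, ih zs]
        simpa using hL

lemma ev_count (L : List ℚ) (P : A) (h : ∀ u, co P u ≠ 0 → L.length ≤ u.count 0) : ev L P = 0 := by
  have := lext_mem (evL L) ⊥ P (fun u hu => by
    rw [Submodule.mem_bot]
    exact evL_count u L (h u hu))
  exact (Submodule.mem_bot ℚ).1 this

lemma ev_x_one (z : ℚ) (zs : List ℚ) (P : A) : ev (z :: zs) (x 1 * P) = z * ev (z :: zs) P := by
  induction P using al_induction with
  | h1 l =>
    unfold ev x
    rw [wd_mul, lext_wd, lext_wd]
    exact evL_one z zs l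
  | h2 P Q hP hQ => rw [mul_add, map_add, map_add, hP, hQ]; ring
  | h3 c P hP => rw [mul_smul_comm, map_smul, map_smul, hP, smul_eq_mul, smul_eq_mul]; ring

lemma ev_x_zero (z : ℚ) (zs : List ℚ) (P : A) : ev (z :: zs) (x 0 * P) = ev zs P := by
  induction P using al_induction with
  | h1 l =>
    unfold ev x
    rw [wd_mul, lext_wd, lext_wd]
    exact evL_zero z zs l
  | h2 P Q hP hQ => rw [mul_add, map_add, map_add, hP, hQ]
  | h3 c P hP => rw [mul_smul_comm, map_smul, map_smul, hP]

/-! ### the derivation -/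

section

variable {f : A} (h0 : ∀ z, ev [z] f = 0)
include h0

lemma c1 (z : ℚ) : ev [z] (x 1 * f - f * x 1) = 0 := by
  rw [map_sub, ev_x_one, m1, h0]; ring

lemma c2 (a b : ℚ) : ev [a, b] (x 1 * f - f * x 1) = (a - b) * ev [a, b] f := by
  rw [map_sub, ev_x_one, m2, h0]
  simp [x, ev, lext_wd, evL]
  ring

lemma c3 (a b c : ℚ) : ev [a, b, c] (x 1 * f - f * x 1) = (a - c) * ev [a, b, c] f := by
  rw [map_sub, ev_x_one, m3, h0]
  simp [x, ev, lext_wd, evL]
  ring

lemma c4 (a b c d : ℚ) : ev [a, b, c, d] (x 1 * f - f * x 1) = (a - d) * ev [a, b, c, d] f := by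
  rw [map_sub, ev_x_one, m4, h0]
  simp [x, ev, lext_wd, evL]
  ring

lemma d1 (u : List (Fin 2)) : ∀ z, ev [z] (derW f u) = 0 := by
  induction u with
  | nil => intro z; rw [derW, map_zero]
  | cons i u ih =>
    intro z
    have hi : i = 1 ∨ i = 0 := by omega
    rcases hi with rfl | rfl
    · rw [derW, if_pos rfl, map_add, m1, c1 h0, ev_x_one, ih]; ring
    · rw [derW, if_neg (by decide), zero_mul, zero_add, ev_x_zero]
      have : ∀ P : A, ev [] P = 0 := fun P => ev_count [] P (fun u _ => by simp)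
      exact this _

lemma d2 (u : List (Fin 2)) : ∀ a b, ev [a, b] (derW f u) =
    ev [a, b] f * (ev [a] (wd u) - ev [b] (wd u)) := by
  have hw : ∀ (L : List ℚ) (v : List (Fin 2)), ev L (wd v) = evL L v := fun L v => lext_wd _ _
  induction u with
  | nil =>
    intro a b
    rw [derW, map_zero]
    simp only [hw]
    simp [evL]
  | cons i u ih =>
    intro a b
    have hi : i = 1 ∨ i = 0 := by omega
    rcases hi with rfl | rfl
    · rw [derW, if_pos rfl, map_add, m2, c1 h0, c2 h0, ev_x_one, ih]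
      simp only [hw, evL_one]
      ring
    · rw [derW, if_neg (by decide), zero_mul, zero_add, ev_x_zero, d1 h0]
      simp only [hw, evL_zero, evL_nil]
      ring

lemma d3 (u : List (Fin 2)) : ∀ a b c, ev [a, b, c] (derW f u) =
    ev [a, b] f * (ev [a, c] (wd u) - ev [b, c] (wd u)) +
    ev [b, c] f * (ev [a, b] (wd u) - ev [a, c] (wd u)) +
    ev [a, b, c] f * (ev [a] (wd u) - ev [c] (wd u)) := by
  have hw : ∀ (L : List ℚ) (v : List (Fin 2)), ev L (wd v) = evL L v := fun L v => lext_wd _ _
  induction u with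
  | nil =>
    intro a b c
    rw [derW, map_zero]
    simp only [hw]
    simp [evL]
  | cons i u ih =>
    intro a b c
    have hi : i = 1 ∨ i = 0 := by omega
    rcases hi with rfl | rfl
    · rw [derW, if_pos rfl, map_add, m3, c1 h0, c2 h0, c3 h0, ev_x_one, ih]
      simp only [hw, evL_one]
      ring
    · rw [derW, if_neg (by decide), zero_mul, zero_add, ev_x_zero, d2 h0]
      simp only [hw, evL_zero, evL_nil]
      ring

lemma d4 (u : List (Fin 2)) : ∀ a b c d, ev [a, b, c, d] (derW f u) =
    ev [a, b] f * (ev [a, c, d] (wd u) - ev [b, c, d] (wd u)) +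
    ev [b, c] f * (ev [a, b, d] (wd u) - ev [a, c, d] (wd u)) +
    ev [c, d] f * (ev [a, b, c] (wd u) - ev [a, b, d] (wd u)) +
    ev [a, b, c] f * (ev [a, d] (wd u) - ev [c, d] (wd u)) +
    ev [b, c, d] f * (ev [a, b] (wd u) - ev [a, d] (wd u)) +
    ev [a, b, c, d] f * (ev [a] (wd u) - ev [d] (wd u)) := by
  have hw : ∀ (L : List ℚ) (v : List (Fin 2)), ev L (wd v) = evL L v := fun L v => lext_wd _ _
  induction u with
  | nil =>
    intro a b c d
    rw [derW, map_zero]
    simp only [hw]
    simp [evL]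
  | cons i u ih =>
    intro a b c d
    have hi : i = 1 ∨ i = 0 := by omega
    rcases hi with rfl | rfl
    · rw [derW, if_pos rfl, map_add, m4, c1 h0, c2 h0, c3 h0, c4 h0, ev_x_one, ih]
      simp only [hw, evL_one]
      ring
    · rw [derW, if_neg (by decide), zero_mul, zero_add, ev_x_zero, d3 h0]
      simp only [hw, evL_zero, evL_nil]
      ring

lemma e3 (g : A) (a b c : ℚ) : ev [a, b, c] (der f g) =
    ev [a, b] f * (ev [a, c] g - ev [b, c] g) +
    ev [b, c] f * (ev [a, b] g - ev [a, c] g) +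
    ev [a, b, c] f * (ev [a] g - ev [c] g) := by
  induction g using al_induction with
  | h1 l => unfold der; rw [lext_wd, d3 h0]
  | h2 P Q hP hQ => simp only [map_add, hP, hQ]; ring
  | h3 c P hP => simp only [map_smul, hP, smul_eq_mul]; ring

lemma e4 (g : A) (a b c d : ℚ) : ev [a, b, c, d] (der f g) =
    ev [a, b] f * (ev [a, c, d] g - ev [b, c, d] g) +
    ev [b, c] f * (ev [a, b, d] g - ev [a, c, d] g) +
    ev [c, d] f * (ev [a, b, c] g - ev [a, b, d] g) +
    ev [a, b, c] f * (ev [a, d] g - ev [c, d] g) +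
    ev [b, c, d] f * (ev [a, b] g - ev [a, d] g) +
    ev [a, b, c, d] f * (ev [a] g - ev [d] g) := by
  induction g using al_induction with
  | h1 l => unfold der; rw [lext_wd, d4 h0]
  | h2 P Q hP hQ => simp only [map_add, hP, hQ]; ring
  | h3 c P hP => simp only [map_smul, hP, smul_eq_mul]; ring

end

/-- brick G3a -/
theorem t_Ih11 : Ih11 := by
  intro f g hf hg z0 z1 z2
  have hf0 : ∀ z, ev [z] f = 0 := fun z => ev_count _ _ (fun u hu => hf u hu)
  have hg0 : ∀ z, ev [z] g = 0 := fun z => ev_count _ _ (fun u hu => hg u hu)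
  unfold ihara
  rw [map_sub, map_add, map_sub, m3, m3, e3 hf0, e3 hg0]
  simp only [hf0, hg0]
  ring

/-- brick G3b -/
theorem t_Ih12 : Ih12 := by
  intro f g hf hg z0 z1 z2 z3
  have hf0 : ∀ z, ev [z] f = 0 := fun z => ev_count _ _ (fun u hu => hf u hu)
  have hg0 : ∀ z, ev [z] g = 0 := fun z => ev_count _ _ (fun u hu => (Nat.le_succ 1).trans (hg u hu))
  have hg1 : ∀ z w, ev [z, w] g = 0 := fun z w => ev_count _ _ (fun u hu => hg u hu)
  unfold ihara
  rw [map_sub, map_add, map_sub, m4, m4, e4 hf0, e4 hg0]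
  simp only [hf0, hg0, hg1]
  ring

/-! ### gradings -/

/-- the elements all whose words `u` satisfy `R c (w u)` -/
def Gr (w : List (Fin 2) → ℕ) (R : ℕ → ℕ → Prop) (c : ℕ) : Submodule ℚ A where
  carrier := {P | ∀ u, co P u ≠ 0 → R c (w u)}
  add_mem' := by
    intro P Q hP hQ u hu
    rw [co_add] at hu
    by_cases h : co P u = 0
    · exact hQ u (by rwa [h, zero_add] at hu)
    · exact hP u h
  zero_mem' := by
    intro u hu
    exact absurd (co_zero u) hu
  smul_mem' := by
    intro c P hP u hu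
    rw [co_smul] at hu
    exact hP u (right_ne_zero_of_mul hu)

lemma mem_Gr {w : List (Fin 2) → ℕ} {R : ℕ → ℕ → Prop} {c : ℕ} {P : A} :
    P ∈ Gr w R c ↔ ∀ u, co P u ≠ 0 → R c (w u) := Iff.rfl

section

variable {w : List (Fin 2) → ℕ} {R : ℕ → ℕ → Prop}
  (hw : ∀ u v, w (u ++ v) = w u + w v) (hR : ∀ a b m n, R a m → R b n → R (a + b) (m + n))
  (hr : ∀ a, R a a)
include hw hR hr

omit hw hR in
lemma wd_mem (u : List (Fin 2)) : (wd u : A) ∈ Gr w R (w u) := by
  intro v hv
  rw [co_wd] at hv
  by_cases h : u = v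
  · rw [h]; exact hr _
  · exact absurd (if_neg h) hv

omit hr in
lemma mul_mem' {P Q : A} {a b : ℕ} (hP : P ∈ Gr w R a) (hQ : Q ∈ Gr w R b) :
    P * Q ∈ Gr w R (a + b) := by
  -- first for words, then by linearity
  have h1 : ∀ u v : List (Fin 2), R a (w u) → R b (w v) → (wd u * wd v : A) ∈ Gr w R (a + b) := by
    intro u v hu hv z hz
    rw [wd_mul, co_wd] at hz
    by_cases h : u ++ v = z
    · rw [← h, hw]; exact hR _ _ _ _ hu hv
    · exact absurd (if_neg h) hz
  have h2 : ∀ u : List (Fin 2), R a (w u) → (wd u * Q : A) ∈ Gr w R (a + b) := by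
    intro u hu
    have : Q ∈ (Gr w R (a + b)).comap (LinearMap.mulLeft ℚ (wd u : A)) :=
      mem_of_words _ Q (fun v hv => h1 u v hu (hQ v hv))
    exact this
  have : P ∈ (Gr w R (a + b)).comap (LinearMap.mulRight ℚ Q) :=
    mem_of_words _ P (fun u hu => h2 u (hP u hu))
  exact this

lemma derW_mem {f : A} {a : ℕ} (hf : f ∈ Gr w R a) (u : List (Fin 2)) :
    derW f u ∈ Gr w R (a + w u) := by
  induction u with
  | nil => rw [derW]; exact Submodule.zero_mem _
  | cons i u ih =>
    have e : w (i :: u) = w [i] + w u := by rw [← hw]; rfl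
    rw [derW]
    refine Submodule.add_mem _ ?_ ?_
    · by_cases hi : i = 1
      · subst hi
        rw [if_pos rfl, e, ← add_assoc]
        refine mul_mem' hw hR (Submodule.sub_mem _ ?_ ?_) (wd_mem hr u)
        · rw [add_comm a]
          exact mul_mem' hw hR (wd_mem hr _) hf
        · exact mul_mem' hw hR hf (wd_mem hr _)
      · rw [if_neg hi, zero_mul]
        exact Submodule.zero_mem _
    · rw [e, add_left_comm]
      exact mul_mem' hw hR (wd_mem hr _) ih

end

/-- brick G3c -/
theorem t_IhCount : IhCount := by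
  intro f g a b hf hg
  have hw : ∀ u v : List (Fin 2), (u ++ v).count 0 = u.count 0 + v.count 0 := fun u v =>
    List.count_append
  have hR : ∀ a b m n : ℕ, a ≤ m → b ≤ n → a + b ≤ m + n := fun _ _ _ _ h h' => add_le_add h h'
  have hf' : f ∈ Gr (fun u => u.count 0) (· ≤ ·) a := hf
  have hg' : g ∈ Gr (fun u => u.count 0) (· ≤ ·) b := hg
  have hd : ∀ (f g : A) (a b : ℕ), f ∈ Gr (fun u => u.count 0) (· ≤ ·) a →
      g ∈ Gr (fun u => u.count 0) (· ≤ ·) b → der f g ∈ Gr (fun u => u.count 0) (· ≤ ·) (a + b) := by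
    intro f g a b hf hg
    refine lext_mem _ _ _ fun u hu v hv => ?_
    have h1 := derW_mem (w := fun u => u.count 0) (R := (· ≤ ·)) hw hR (fun _ => le_refl _) hf u v hv
    have h2 := hg u hu
    exact (Nat.add_le_add_left h2 a).trans h1
  have key : ihara f g ∈ Gr (fun u => u.count 0) (· ≤ ·) (a + b) := by
    unfold ihara
    refine Submodule.sub_mem _ (Submodule.add_mem _ (Submodule.sub_mem _ ?_ ?_) ?_) ?_
    · exact mul_mem' hw hR hf' hg'
    · rw [add_comm]; exact mul_mem' hw hR hg' hf'
    · exact hd f g a b hf' hg'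
    · rw [add_comm]; exact hd g f b a hg' hf'
  exact key

/-- brick G3d -/
theorem t_IhLen : IhLen := by
  intro f g a b hf hg
  have hw : ∀ u v : List (Fin 2), (u ++ v).length = u.length + v.length := fun u v =>
    List.length_append
  have hR : ∀ a b m n : ℕ, m = a → n = b → m + n = a + b := fun _ _ _ _ h h' => by rw [h, h']
  have hf' : f ∈ Gr (fun u => u.length) (fun a m => m = a) a := hf
  have hg' : g ∈ Gr (fun u => u.length) (fun a m => m = a) b := hg
  have hd : ∀ (f g : A) (a b : ℕ), f ∈ Gr (fun u => u.length) (fun a m => m = a) a →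
      g ∈ Gr (fun u => u.length) (fun a m => m = a) b →
      der f g ∈ Gr (fun u => u.length) (fun a m => m = a) (a + b) := by
    intro f g a b hf hg
    refine lext_mem _ _ _ fun u hu v hv => ?_
    have h1 := derW_mem (w := fun u => u.length) (R := fun a m => m = a) hw hR (fun _ => rfl) hf u v hv
    have h2 := hg u hu
    show v.length = a + b
    have h3 : v.length = a + u.length := h1
    have h4 : u.length = b := h2
    rw [h3, h4]
  have key : ihara f g ∈ Gr (fun u => u.length) (fun a m => m = a) (a + b) := by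
    unfold ihara
    refine Submodule.sub_mem _ (Submodule.add_mem _ (Submodule.sub_mem _ ?_ ?_) ?_) ?_
    · exact mul_mem' hw hR hf' hg'
    · rw [add_comm]; exact mul_mem' hw hR hg' hf'
    · exact hd f g a b hf' hg'
    · rw [add_comm]; exact hd g f b a hg' hf'
  exact key

end Pool.Agent.K3h93.GEN
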